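import Pool.Agent.N874.PP.Gal
import Pool.Agent.TH115.GD.Gal

/-!
# The local condition

Project PP (helper874), part GL: a cocycle with values in the points of order two which is locally
trivial satisfies the local condition in terms of polynomials.
-/

set_option autoImplicit false
set_option linter.all false

open Polynomial IsDedekindDomain WeierstrassCurve WeierstrassCurve.Affine
open Pool.Agent.TH115.GD Pool.Agent.N874.PP
open scoped Classical

namespace Pool.Agent.N199.PP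

section roots

variable {K Ω : Type} [Field K] [Field Ω] [Algebra K Ω]

/-- the cubic polynomial -/
noncomputable def cub {R : Type} [CommRing R] (A B : R) : R[X] := X ^ 3 + C A * X + C B

theorem cub_monic {R : Type} [CommRing R] [Nontrivial R] (A B : R) : (cub A B).Monic := by
  unfold cub
  have : X ^ 3 + C A * X + C B = X ^ 3 + (C A * X + C B) := by ring
  rw [this]
  refine monic_X_pow_add ?_
  refine lt_of_le_of_lt (degree_linear_le) ?_
  norm_num

theorem cub_natDegree {R : Type} [CommRing R] [Nontrivial R] (A B : R) :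
    (cub A B).natDegree = 3 := by
  unfold cub
  compute_degree!

theorem cub_map {R R' : Type} [CommRing R] [CommRing R'] (f : R →+* R') (A B : R) :
    (cub A B).map f = cub (f A) (f B) := by
  unfold cub
  simp

theorem cub_separable (A B : K) (h : 4 * A ^ 3 + 27 * B ^ 2 ≠ 0) : (cub A B).Separable := by
  refine ⟨C (4 * A ^ 3 + 27 * B ^ 2)⁻¹ * (-(C (18 * A)) * X + C (27 * B)),
    C (4 * A ^ 3 + 27 * B ^ 2)⁻¹ * (C (6 * A) * X ^ 2 - C (9 * B) * X + C (4 * A ^ 2)), ?_⟩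
  have hd : derivative (cub A B) = C 3 * X ^ 2 + C A := by
    unfold cub
    simp
    rw [← C_1, ← C_add]
    norm_num
  rw [hd]
  have h1 : (-(C (18 * A)) * X + C (27 * B)) * cub A B +
      (C (6 * A) * X ^ 2 - C (9 * B) * X + C (4 * A ^ 2)) * (C 3 * X ^ 2 + C A) =
      C (4 * A ^ 3 + 27 * B ^ 2) := by
    unfold cub
    simp only [C_mul, C_add, C_pow, C_ofNat]
    ring
  calc _ = C (4 * A ^ 3 + 27 * B ^ 2)⁻¹ * ((-(C (18 * A)) * X + C (27 * B)) * cub A B +
      (C (6 * A) * X ^ 2 - C (9 * B) * X + C (4 * A ^ 2)) * (C 3 * X ^ 2 + C A)) := by ring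
    _ = 1 := by
      rw [h1, ← C_mul, inv_mul_cancel₀ h, C_1]

theorem exists_Z [IsSepClosed Ω] (A B : K) (h : 4 * A ^ 3 + 27 * B ^ 2 ≠ 0) :
    ∃ Z : Finset Ω, Z.card = 3 ∧
      cub (algebraMap K Ω A) (algebraMap K Ω B) = ∏ t ∈ Z, (X - C t) := by
  have hs : (cub (algebraMap K Ω A) (algebraMap K Ω B)).Separable := by
    rw [← cub_map]
    exact (cub_separable A B h).map
  have hsp := IsSepClosed.splits_of_separable _ hs
  refine ⟨(cub (algebraMap K Ω A) (algebraMap K Ω B)).roots.toFinset, ?_, ?_⟩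
  · rw [Multiset.toFinset_card_of_nodup (nodup_roots hs)]
    rw [← cub_natDegree (algebraMap K Ω A) (algebraMap K Ω B)]
    exact hsp.natDegree_eq_card_roots.symm
  · have h1 := hsp.eq_prod_roots_of_monic (cub_monic _ _)
    conv_lhs => rw [h1]
    rw [Finset.prod_multiset_map_count]
    refine Finset.prod_congr rfl fun t ht => ?_
    rw [Multiset.count_eq_one_of_mem (nodup_roots hs) (Multiset.mem_toFinset.1 ht), pow_one]

theorem mem_Z {A B : K} {Z : Finset Ω}
    (hZ : cub (algebraMap K Ω A) (algebraMap K Ω B) = ∏ t ∈ Z, (X - C t)) (t : Ω) :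
    t ∈ Z ↔ Rt A B t := by
  unfold Rt
  have h1 : t ^ 3 + algebraMap K Ω A * t + algebraMap K Ω B =
      eval t (cub (algebraMap K Ω A) (algebraMap K Ω B)) := by
    unfold cub
    simp
  rw [h1, hZ, eval_prod, Finset.prod_eq_zero_iff]
  constructor
  · intro ht
    exact ⟨t, ht, by simp⟩
  · rintro ⟨u, hu, h2⟩
    rw [eval_sub, eval_X, eval_C, sub_eq_zero] at h2
    rw [h2]
    exact hu

end roots

section interp

variable {K Ω L Ω' : Type} [Field K] [Field Ω] [Field L] [Field Ω'] [Algebra K Ω] [Algebra K L]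
  [Algebra L Ω'] [Algebra K Ω'] [IsScalarTower K L Ω'] [IsGalois L Ω']

theorem exists_res [IsGalois K Ω] (ι : Ω →ₐ[K] Ω') (τ : Ω' ≃ₐ[L] Ω') :
    ∃ σ : Ω ≃ₐ[K] Ω, ∀ x, τ (ι x) = ι (σ x) := by
  letI : Algebra Ω Ω' := ι.toRingHom.toAlgebra
  haveI : IsScalarTower K Ω Ω' := IsScalarTower.of_algebraMap_eq fun x => (ι.commutes x).symm
  refine ⟨(τ.restrictScalars K).restrictNormal Ω, fun x => ?_⟩
  exact ((τ.restrictScalars K).restrictNormal_commutes Ω x).symm

theorem Rt_map {A B : K} {Ω₁ Ω₂ : Type} [Field Ω₁] [Field Ω₂] [Algebra K Ω₁] [Algebra K Ω₂]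
    (φ : Ω₁ →ₐ[K] Ω₂) {t : Ω₁} (ht : Rt A B t) : Rt A B (φ t) := by
  unfold Rt at *
  have := congrArg φ ht
  simpa using this

theorem interp {A B : K} {Z : Finset Ω}
    (hZ : cub (algebraMap K Ω A) (algebraMap K Ω B) = ∏ t ∈ Z, (X - C t))
    (hZ3 : Z.card = 3) (ι : Ω →ₐ[K] Ω')
    (hres : ∀ τ : Ω' ≃ₐ[L] Ω', ∃ σ : Ω ≃ₐ[K] Ω, ∀ x, τ (ι x) = ι (σ x)) (s : Ω → Ω')
    (hs : ∀ (τ : Ω' ≃ₐ[L] Ω') (σ : Ω ≃ₐ[K] Ω), (∀ x, τ (ι x) = ι (σ x)) → ∀ t ∈ Z,
      τ (s t) = s (σ t)) (H : L[X])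
    (hH : ∀ t ∈ Z, eval (ι t) (H.map (algebraMap L Ω')) = s t ^ 2) :
    ∃ g : L[X], cub (algebraMap K L A) (algebraMap K L B) ∣ H - g ^ 2 := by
  have hinj : Set.InjOn ι (Z : Set Ω) := ι.injective.injOn
  obtain ⟨g', hg'⟩ : ∃ g', g' = Lagrange.interpolate Z ι s := ⟨_, rfl⟩
  have hg'1 : ∀ t ∈ Z, eval (ι t) g' = s t := fun t ht => by
    rw [hg']
    exact Lagrange.eval_interpolate_at_node s hinj ht
  have hg'2 : g'.degree < Z.card := by
    rw [hg']
    exact Lagrange.degree_interpolate_lt s hinj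
  have hfix : ∀ τ : Ω' ≃ₐ[L] Ω', g'.map (τ : Ω' →+* Ω') = g' := by
    intro τ
    obtain ⟨σ, hσ⟩ := hres τ
    conv_rhs => rw [hg']
    refine Lagrange.eq_interpolate_of_eval_eq s hinj ?_ ?_
    · rwa [degree_map]
    · intro t ht
      have h1 : Rt A B (σ.symm t) := Rt_map (σ.symm : Ω →ₐ[K] Ω) ((mem_Z hZ t).1 ht)
      have h2 : σ.symm t ∈ Z := (mem_Z hZ _).2 h1
      have h3 : ι t = τ (ι (σ.symm t)) := by
        rw [hσ, AlgEquiv.apply_symm_apply]
      have h4 : eval (τ (ι (σ.symm t))) (g'.map (τ : Ω' →+* Ω')) = τ (eval (ι (σ.symm t)) g') :=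
        eval_map_apply (f := (τ : Ω' →+* Ω')) (p := g') (ι (σ.symm t))
      rw [h3, h4, hg'1 _ h2, hs τ σ hσ _ h2, AlgEquiv.apply_symm_apply]
  have hlift : g' ∈ lifts (algebraMap L Ω') := by
    rw [lifts_iff_coeff_lifts]
    intro n
    rw [InfiniteGalois.mem_range_algebraMap_iff_fixed]
    intro τ
    have h1 := congrArg (fun p => coeff p n) (hfix τ)
    simpa using h1
  obtain ⟨g, hg⟩ := (mem_lifts _).1 hlift
  refine ⟨g, ?_⟩
  rw [← map_dvd_map' (algebraMap L Ω'), cub_map, ← IsScalarTower.algebraMap_apply,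
    ← IsScalarTower.algebraMap_apply]
  have h5 : cub (algebraMap K Ω' A) (algebraMap K Ω' B) = ∏ t ∈ Z, (X - C (ι t)) := by
    have h6 := congrArg (Polynomial.map (ι : Ω →+* Ω')) hZ
    rw [cub_map, Polynomial.map_prod] at h6
    simpa using h6
  rw [h5]
  refine Finset.prod_dvd_of_coprime ?_ ?_
  · intro t _ u _ htu
    exact pairwise_coprime_X_sub_C ι.injective htu
  · intro t ht
    rw [dvd_iff_isRoot, IsRoot.def, Polynomial.map_sub, Polynomial.map_pow, hg, eval_sub,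
      eval_pow, hH t ht, hg'1 t ht, sub_self]

end interp

section sg

variable {K Ω : Type} [Field K] [Field Ω] [Algebra K Ω] {A B : K}

theorem sg_sq (T : Pt (sW A B) Ω) (t : Ω) : sg T t * sg T t = 1 := by
  unfold sg
  split_ifs <;> simp

theorem eq_of_nonsing {L : Type} [Field L] [Algebra K L] {x y : L}
    (h : ((sW A B).baseChange L).toAffine.Nonsingular x y) :
    y ^ 2 = x ^ 3 + algebraMap K L A * x + algebraMap K L B := by
  have h1 := h.1
  rw [WeierstrassCurve.Affine.equation_iff] at h1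
  simp only [sW, WeierstrassCurve.baseChange, WeierstrassCurve.map, map_zero] at h1
  linear_combination h1

end sg

/-- (GL) the local condition -/
theorem gl (h1 : S_GP1) (h2 : S_GP2) (h3 : S_GP3) (h4 : S_GP4) : S_GL := by
  intro k K _ _ _ _ A B h6 hd f hf hf2 β h hβ hh v hloc
  have h6' : (6 : K) ≠ 0 := by
    have e1 : (6 : K) = algebraMap k[X] K (C 6) := by
      rw [show (C (6 : k) : k[X]) = 6 from rfl, map_ofNat]
    rw [e1, Ne, map_eq_zero_iff _ (IsFractionRing.injective k[X] K), C_eq_zero]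
    exact h6
  have hD : 4 * (algebraMap k[X] K A) ^ 3 + 27 * (algebraMap k[X] K B) ^ 2 ≠ 0 := by
    have e1 : 4 * (algebraMap k[X] K A) ^ 3 + 27 * (algebraMap k[X] K B) ^ 2 =
        algebraMap k[X] K (4 * A ^ 3 + 27 * B ^ 2) := by
      simp only [map_add, map_mul, map_pow, map_ofNat]
    rw [e1, Ne, map_eq_zero_iff _ (IsFractionRing.injective k[X] K)]
    exact hd
  obtain ⟨ι, P, hP⟩ := hloc
  obtain ⟨Z, hZ3, hZ⟩ := exists_Z (Ω := Sep K) (algebraMap k[X] K A) (algebraMap k[X] K B) hD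
  obtain ⟨ι', hι'⟩ : ∃ ι' : Sep K →ₐ[K] Sep (Comp k[X] K v), ι' = ι.restrictScalars K := ⟨_, rfl⟩
  have hιx : ∀ x, ι x = ι' x := fun x => by rw [hι']; rfl
  simp only [hιx] at hP
  rw [← hι'] at hP
  have hres : ∀ τ : Sep (Comp k[X] K v) ≃ₐ[Comp k[X] K v] Sep (Comp k[X] K v),
      ∃ σ : Sep K ≃ₐ[K] Sep K, ∀ x, τ (ι' x) = ι' (σ x) := fun τ => exists_res ι' τ
  -- the points of order two
  have hT2 : ∀ σ : Sep K ≃ₐ[K] Sep K,
      (2 : ℕ) • act (sW (algebraMap k[X] K A) (algebraMap k[X] K B)) ι' (f σ) = 0 := by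
    intro σ
    rw [← map_nsmul, hf2, map_zero]
  have hTP : ∀ (τ : Sep (Comp k[X] K v) ≃ₐ[Comp k[X] K v] Sep (Comp k[X] K v))
      (σ : Sep K ≃ₐ[K] Sep K), (∀ x, τ (ι' x) = ι' (σ x)) →
      act (sW (algebraMap k[X] K A) (algebraMap k[X] K B)) (rs K τ) P =
        P + act (sW (algebraMap k[X] K A) (algebraMap k[X] K B)) ι' (f σ) := by
    intro τ σ hτσ
    rw [hP τ σ hτσ]
    abel
  -- the values of `h`
  have hval : ∀ t ∈ Z, eval (ι' t) ((h.map (algebraMap K (Comp k[X] K v))).map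
      (algebraMap (Comp k[X] K v) (Sep (Comp k[X] K v)))) = ι' (β t) ^ 2 := by
    intro t ht
    rw [Polynomial.map_map, ← IsScalarTower.algebraMap_eq, ← map_pow,
      ← hh t ((mem_Z hZ t).1 ht), eval_map_algebraMap]
    exact aeval_algHom_apply ι' t h
  by_cases hPP : (2 : ℕ) • P = 0
  · -- the point is of order two
    left
    refine interp hZ hZ3 ι' hres (fun t => sg P (ι' t) * ι' (β t)) ?_
      (h.map (algebraMap K (Comp k[X] K v))) ?_
    · intro τ σ hτσ t ht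
      have hR := (mem_Z hZ t).1 ht
      have hR' : Rt (algebraMap k[X] K A) (algebraMap k[X] K B) (σ t) :=
        Rt_map (σ : Sep K →ₐ[K] Sep K) hR
      have hR'' : Rt (algebraMap k[X] K A) (algebraMap k[X] K B) (ι' (σ t)) := Rt_map ι' hR'
      have e1 : τ (sg P (ι' t)) = sg (P + act (sW (algebraMap k[X] K A) (algebraMap k[X] K B)) ι'
          (f σ)) (ι' (σ t)) := by
        rw [← hTP τ σ hτσ, ← hτσ]
        exact ((h4 K _ _ _ _ (rs K τ) P (ι' t)).1).symm
      have e2 : ∀ T : Pt (sW (algebraMap k[X] K A) (algebraMap k[X] K B)) (Sep (Comp k[X] K v)),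
          (2 : ℕ) • T = 0 → sg (P + T) (ι' (σ t)) = sg P (ι' (σ t)) * sg T (ι' (σ t)) := by
        intro T hT
        obtain ⟨a, b, c, hab, hac, hbc, hZe⟩ := Finset.card_eq_three.1 hZ3
        have ma := Rt_map ι' ((mem_Z hZ a).1 (by rw [hZe]; simp))
        have mb := Rt_map ι' ((mem_Z hZ b).1 (by rw [hZe]; simp))
        have mc := Rt_map ι' ((mem_Z hZ c).1 (by rw [hZe]; simp))
        exact (h3 K _ _ _ h6' hD (ι' a) (ι' b) (ι' c) ma mb mc
          (fun e => hab (ι'.injective e)) (fun e => hac (ι'.injective e))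
          (fun e => hbc (ι'.injective e))).2.1 P T _ hPP hT hR''
      have e3 : sg (act (sW (algebraMap k[X] K A) (algebraMap k[X] K B)) ι' (f σ)) (ι' (σ t)) =
          ι' (sg (f σ) (σ t)) := (h4 K _ _ _ _ ι' (f σ) (σ t)).1
      have e4 : τ (ι' (β t)) = ι' (sg (f σ) (σ t)) * ι' (β (σ t)) := by
        rw [hτσ, (hβ t hR).2 σ, map_mul]
      show τ (sg P (ι' t) * ι' (β t)) = sg P (ι' (σ t)) * ι' (β (σ t))
      rw [map_mul, e1, e2 _ (hT2 σ), e3, e4]
      have e5 : ι' (sg (f σ) (σ t)) * ι' (sg (f σ) (σ t)) = 1 := by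
        rw [← map_mul, sg_sq, map_one]
      linear_combination (sg P (ι' (σ t)) * ι' (β (σ t))) * e5
    · intro t ht
      rw [hval t ht]
      have e5 := sg_sq P (ι' t)
      linear_combination (-(ι' (β t)) ^ 2) * e5
  · -- the general case
    right
    obtain ⟨x, y, hxy, h2P, hrr⟩ := h1 K _ _ _ h6' hD P hPP
    obtain ⟨Q, hQ⟩ := fixed_point (K := K) (F := Comp k[X] K v)
      (sW (algebraMap k[X] K A) (algebraMap k[X] K B)) ((2 : ℕ) • P) (by
        intro τ
        obtain ⟨σ, hσ⟩ := hres τ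
        rw [map_nsmul, hTP τ σ hσ, smul_add, hT2, add_zero])
    rcases Q with _ | ⟨x0, y0, hq⟩
    · exact absurd hQ.symm hPP
    rw [h2P] at hQ
    have hx0 : algebraMap (Comp k[X] K v) (Sep (Comp k[X] K v)) x0 = x := (Point.some.inj hQ).1
    obtain ⟨H, hH⟩ : ∃ H : (Comp k[X] K v)[X],
      H = (C x0 - X) * h.map (algebraMap K (Comp k[X] K v)) := ⟨_, rfl⟩
    suffices key : ∃ g : (Comp k[X] K v)[X], cub (algebraMap K (Comp k[X] K v)
        (algebraMap k[X] K A)) (algebraMap K (Comp k[X] K v) (algebraMap k[X] K B)) ∣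
        H - g ^ 2 by
      rw [hH] at key
      exact ⟨x0, y0, eq_of_nonsing hq, key⟩
    refine interp hZ hZ3 ι' hres (fun t => rr (ι' t) P * ι' (β t)) ?_ H ?_
    · intro τ σ hτσ t ht
      have hR := (mem_Z hZ t).1 ht
      have hR' : Rt (algebraMap k[X] K A) (algebraMap k[X] K B) (σ t) :=
        Rt_map (σ : Sep K →ₐ[K] Sep K) hR
      have hR'' : Rt (algebraMap k[X] K A) (algebraMap k[X] K B) (ι' (σ t)) := Rt_map ι' hR'
      have e1 : τ (rr (ι' t) P) = rr (ι' (σ t)) (P + act (sW (algebraMap k[X] K A)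
          (algebraMap k[X] K B)) ι' (f σ)) := by
        rw [← hTP τ σ hτσ, ← hτσ]
        exact ((h4 K _ _ _ _ (rs K τ) P (ι' t)).2).symm
      have e2 := h2 K _ _ _ h6' hD P _ hPP (hT2 σ) (ι' (σ t)) hR''
      have e3 : sg (act (sW (algebraMap k[X] K A) (algebraMap k[X] K B)) ι' (f σ)) (ι' (σ t)) =
          ι' (sg (f σ) (σ t)) := (h4 K _ _ _ _ ι' (f σ) (σ t)).1
      have e4 : τ (ι' (β t)) = ι' (sg (f σ) (σ t)) * ι' (β (σ t)) := by
        rw [hτσ, (hβ t hR).2 σ, map_mul]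
      show τ (rr (ι' t) P * ι' (β t)) = rr (ι' (σ t)) P * ι' (β (σ t))
      rw [map_mul, e1, e2, e3, e4]
      have e5 : ι' (sg (f σ) (σ t)) * ι' (sg (f σ) (σ t)) = 1 := by
        rw [← map_mul, sg_sq, map_one]
      linear_combination (rr (ι' (σ t)) P * ι' (β (σ t))) * e5
    · intro t ht
      rw [hH, Polynomial.map_mul, eval_mul, hval t ht, Polynomial.map_sub, map_C, map_X, eval_sub,
        eval_C, eval_X, hx0]
      have e5 := hrr (ι' t) (Rt_map ι' ((mem_Z hZ t).1 ht))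
      linear_combination (-(ι' (β t)) ^ 2) * e5

end Pool.Agent.N199.PP
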